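import Pool.Agent.H9.UP3

namespace Pool.Agent.Results.MP_6da9ed_an.Counter
open Filter Topology

/-- numerical radius `v(T)` -/
noncomputable def numRad (X : Type) [SeminormedAddCommGroup X] [NormedSpace ℝ X]
    (T : X →L[ℝ] X) : ℝ :=
  sSup {r | ∃ (x : X) (f : X →L[ℝ] ℝ), ‖x‖ = 1 ∧ ‖f‖ = 1 ∧ f x = 1 ∧ r = |f (T x)|}

/-- numerical index `n(X)` -/
noncomputable def index (X : Type) [SeminormedAddCommGroup X] [NormedSpace ℝ X] : ℝ :=
  sInf {r | ∃ T : X →L[ℝ] X, ‖T‖ = 1 ∧ r = numRad X T}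

/-- the numerical index of the quotient `E / N` with the quotient norm -/
noncomputable def quotIndex (E : Type) [NormedAddCommGroup E] [NormedSpace ℝ E]
    (N : Submodule ℝ E) : ℝ := index (E ⧸ N)

/-- the quotient norm of the class of `x` in `E / N` -/
noncomputable def quotNorm (E : Type) [NormedAddCommGroup E] [NormedSpace ℝ E]
    (N : Submodule ℝ E) (x : E) : ℝ := ‖(Submodule.Quotient.mk x : E ⧸ N)‖

/-- the subspace of the bounded sequences whose norms tend to zero along `U` -/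
noncomputable def null (X : Type) [NormedAddCommGroup X] [NormedSpace ℝ X] (U : Ultrafilter ℕ) :
    Submodule ℝ (lp (fun _ : ℕ => X) ⊤) :=
  Submodule.span ℝ {x | Tendsto (fun k => ‖x k‖) U (𝓝 0)}

theorem result : ∃ (X : Type) (_ : NormedAddCommGroup X) (_ : NormedSpace ℝ X),
    CompleteSpace X ∧ Nontrivial X ∧ 0 < index X ∧ ∀ U : Ultrafilter ℕ, (U : Filter ℕ) ≤ cofinite →
      (∀ x : lp (fun _ : ℕ => X) ⊤, Tendsto (fun k => ‖x k‖) U (𝓝 (quotNorm _ (null X U) x))) ∧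
      quotIndex _ (null X U) = 0 := by
  have a2 : ∀ (Y : Type) [SeminormedAddCommGroup Y] [NormedSpace ℝ Y] (T : Y →L[ℝ] Y),
      0 ≤ numRad Y T := fun Y _ _ T =>
    Real.sSup_nonneg fun _ ⟨_, _, _, _, _, e⟩ => e ▸ abs_nonneg _
  obtain ⟨X, _, _, h1, h0, h2, h3⟩ := H9.UP.fin
  have h4 : ∀ U x, x ∈ null X U ↔ Tendsto (fun k => ‖x k‖) U (𝓝 0) := fun U x =>
    ⟨fun h => Submodule.span_induction (fun _ => id) (by simp) (fun x y _ _ a b => squeeze_zero
      (fun _ => norm_nonneg _) (fun k => norm_add_le (x k) (y k)) (by simpa using a.add b))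
      (fun c x _ a => by simpa [norm_smul] using a.const_mul ‖c‖) h,
      fun h => Submodule.subset_span h⟩
  refine ⟨X, _, _, h1, h0, lt_of_lt_of_le (show (0 : ℝ) < 1 / 442 by norm_num)
    (le_csInf ⟨_, _, ContinuousLinearMap.norm_id, rfl⟩ fun _ ⟨T, e1, e2⟩ => ?_), fun U hU =>
    ⟨H9.UP.qn (h4 U), ?_⟩⟩
  · have := h2 (numRad _ T) T (fun p f a1 a2 a3 => le_csSup ⟨1,
      fun _ ⟨q, g, b1, b2, _, e⟩ => e.trans_le ((g.unit_le_opNorm _
        ((T.unit_le_opNorm q b1.le).trans e1.le)).trans b2.le)⟩ ⟨p, f, a1, a2, a3, rfl⟩) (a2 _ T)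
    linarith
  · obtain ⟨J, e1, e2⟩ := h3 U hU (null X U) (h4 U)
    exact IsLeast.csInf_eq ⟨⟨J, e1, (a2 _ J).antisymm (Real.sSup_nonpos
      fun _ ⟨x, f, b1, b2, b3, e⟩ => e.trans_le (e2 x f b1 b2 b3))⟩,
      fun _ ⟨T, _, e⟩ => (a2 _ T).trans_eq e.symm⟩

end Pool.Agent.Results.MP_6da9ed_an.Counter
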